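import Pool.Agent.V11182.Hooks

/-! # `MP_4f06c8_gt`, Q1: the fan built from tilted combs is planar -/

set_option autoImplicit false

open Set Topology Filter MeasureTheory Pool.Agent.V11182.Hooks

namespace Pool.Agent.Results.MP_4f06c8_gt.Planar

/-! ### The definitions of the problem -/

/-- The choices allowed in the problem: `h` is the height function of a comb over the Cantor set
(the comb is the bottom segment with the blades `{x} × [0, h x]`), and `Kn n` are closed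
nowhere dense subsets of the Cantor set such that every choice of one point from each is dense in
the Cantor set.  The density of the endpoints of the comb (in the union of its blades) is not
needed and not assumed: `h` is an arbitrary upper semicontinuous function. -/
structure Admissible (h : cantorSet → ℝ) (Kn : ℕ → Set ℝ) : Prop where
  h_mem : ∀ x, h x ∈ Icc (0 : ℝ) 1
  h_usc : UpperSemicontinuous h
  closed : ∀ n, IsClosed (Kn n)
  sub : ∀ n, Kn n ⊆ cantorSet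
  nwd : ∀ n, IsNowhereDense {x : cantorSet | (x : ℝ) ∈ Kn n}
  dense : ∀ d : ℕ → ℝ, (∀ n, d n ∈ Kn n) → cantorSet ⊆ closure (range d)

/-- The tilted comb with number `n + 1`: the image of the part of the comb over the Cantor set
under `(x, y) ↦ (φ n x, 1 - y / 2, y / (2 (n + 1)))`. -/
def tilted (h : cantorSet → ℝ) {Kn : ℕ → Set ℝ} (φ : ∀ n, cantorSet ≃ₜ Kn n) (n : ℕ) :
    Set (ℝ × ℝ × ℝ) :=
  {p | ∃ x : cantorSet, ∃ y ∈ Icc 0 (h x), p = ((φ n x : ℝ), 1 - y / 2, y / (2 * (n + 1)))}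

/-- The bottom segment. -/
def bottom : Set (ℝ × ℝ × ℝ) := Icc 0 1 ×ˢ {0} ×ˢ {0}

/-- The continuum `C`. -/
def CC (h : cantorSet → ℝ) {Kn : ℕ → Set ℝ} (φ : ∀ n, cantorSet ≃ₜ Kn n) : Set (ℝ × ℝ × ℝ) :=
  ((cantorSet ×ˢ Icc 0 1 ×ˢ {0}) ∪ bottom) ∪ ⋃ n, tilted h φ n

/-- The relation collapsing the bottom segment to a point. -/
def collapse (h : cantorSet → ℝ) {Kn : ℕ → Set ℝ} (φ : ∀ n, cantorSet ≃ₜ Kn n) :
    Setoid (CC h φ) where
  r p q := p = q ∨ ((p : ℝ × ℝ × ℝ) ∈ bottom ∧ (q : ℝ × ℝ × ℝ) ∈ bottom)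
  iseqv := by
    refine ⟨fun p => Or.inl rfl, ?_, ?_⟩
    · rintro p q (h | h)
      · exact Or.inl h.symm
      · exact Or.inr ⟨h.2, h.1⟩
    · rintro p q r (h | h) (h' | h')
      · exact Or.inl (h.trans h')
      · exact Or.inr ⟨h ▸ h'.1, h'.2⟩
      · exact Or.inr ⟨h.1, h' ▸ h.2⟩
      · exact Or.inr ⟨h.1, h'.2⟩

/-- The quotient space `F` of `C`, with the quotient topology. -/
abbrev F (h : cantorSet → ℝ) {Kn : ℕ → Set ℝ} (φ : ∀ n, cantorSet ≃ₜ Kn n) : Type :=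
  Quotient (collapse h φ)

/-- A ramification point: the common end of three arcs any two of which meet only there. -/
def IsRamification {X : Type} [TopologicalSpace X] (p : X) : Prop :=
  ∃ γ : Fin 3 → unitInterval → X,
    (∀ i, Continuous (γ i) ∧ Function.Injective (γ i) ∧ γ i 0 = p) ∧
    ∀ i j, i ≠ j → range (γ i) ∩ range (γ j) ⊆ {p}

/-! ### The Cantor set -/

theorem volume_third (S : Set ℝ) (c : ℝ) :
    volume ((fun x : ℝ => (c + x) / 3) '' S) ≤ ENNReal.ofReal (1 / 3) * volume S := by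
  have h1 : (fun x : ℝ => (c + x) / 3) '' S = (fun y : ℝ => (1 / 3 : ℝ) • y) '' ((fun x => c + x) '' S) := by
    rw [image_image]
    refine image_congr fun x _ => ?_
    simp only [smul_eq_mul]
    ring
  rw [h1, image_smul, Measure.addHaar_smul, image_add_left, measure_preimage_add]
  simp

theorem volume_cantorSet : volume cantorSet = 0 := by
  have hfin : volume cantorSet ≠ ⊤ := by
    refine ((measure_mono cantorSet_subset_unitInterval).trans_lt ?_).ne
    rw [Real.volume_Icc]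
    exact ENNReal.ofReal_lt_top
  have h1 := volume_third cantorSet 0
  have h2 := volume_third cantorSet 2
  simp only [zero_add] at h1
  have h3 : volume cantorSet ≤ ENNReal.ofReal (1 / 3) * volume cantorSet
      + ENNReal.ofReal (1 / 3) * volume cantorSet := by
    conv_lhs => rw [cantorSet_eq_union_halves]
    exact (measure_union_le _ _).trans (add_le_add h1 h2)
  obtain ⟨r, hr⟩ : ∃ r : NNReal, (r : ENNReal) = volume cantorSet :=
    ⟨_, ENNReal.coe_toNNReal hfin⟩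
  rw [← hr] at h3 ⊢
  have h4 : ENNReal.ofReal (1 / 3) = ((1 / 3 : NNReal) : ENNReal) := by
    rw [ENNReal.ofReal]
    congr 1
    rw [← NNReal.coe_inj, Real.coe_toNNReal _ (by norm_num)]
    norm_num
  rw [h4] at h3
  have h5 : r ≤ 1 / 3 * r + 1 / 3 * r := by exact_mod_cast h3
  have h6 : (r : ℝ) ≤ 1 / 3 * r + 1 / 3 * r := by exact_mod_cast h5
  have h7 : (r : ℝ) = 0 := le_antisymm (by linarith) r.2
  have h8 : r = 0 := by exact_mod_cast h7
  rw [h8]
  rfl

theorem interior_cantorSet : interior cantorSet = ∅ := by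
  by_contra hne
  have := isOpen_interior.measure_pos volume (Set.nonempty_iff_ne_empty.2 hne)
  exact absurd (measure_mono_null interior_subset volume_cantorSet) this.ne'

instance : CompactSpace cantorSet := isCompact_iff_compactSpace.1 isCompact_cantorSet

/-! ### Gluing -/

lemma glue {X E : Type} [TopologicalSpace X] [PseudoMetricSpace E] (A : ℕ → Set X)
    (hA : ∀ n, IsClosed (A n)) (f : X → E) (hf : ∀ n, ContinuousOn f (A n))
    (hloc : ∀ p, ∀ ε > 0, ∃ N, ∀ᶠ q in 𝓝 p, (∃ n < N, q ∈ A n) ∨ dist (f q) (f p) < ε) :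
    Continuous f := by
  rw [continuous_iff_continuousAt]
  intro p
  rw [ContinuousAt, Metric.tendsto_nhds]
  intro ε hε
  obtain ⟨N, hN⟩ := hloc p ε hε
  have h1 : ∀ n, ∀ᶠ q in 𝓝 p, q ∈ A n → dist (f q) (f p) < ε := by
    intro n
    by_cases hp : p ∈ A n
    · have h2 := (Metric.tendsto_nhds.1 (hf n p hp)) ε hε
      rwa [eventually_nhdsWithin_iff] at h2
    · filter_upwards [(hA n).isOpen_compl.mem_nhds hp] with q hq hq'
      exact (hq hq').elim
  have h2 : ∀ᶠ q in 𝓝 p, ∀ n ∈ Finset.range N, q ∈ A n → dist (f q) (f p) < ε :=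
    (Filter.eventually_all_finset (Finset.range N)).2 fun n _ => h1 n
  filter_upwards [hN, h2] with q hq hq'
  rcases hq with ⟨n, hn, hq⟩ | hq
  · exact hq' n (Finset.mem_range.2 hn) hq
  · exact hq

/-! ### The set `C` -/

variable {h : cantorSet → ℝ} {Kn : ℕ → Set ℝ} {φ : ∀ n, cantorSet ≃ₜ Kn n}

lemma tilted_facts (hadm : Admissible h Kn) {n : ℕ} {p : ℝ × ℝ × ℝ} (hp : p ∈ tilted h φ n) :
    p.1 ∈ cantorSet ∧ 1 / 2 ≤ p.2.1 ∧ p.2.1 ≤ 1 ∧ 0 ≤ p.2.2 ∧ p.2.2 ≤ 1 / (n + 1) := by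
  obtain ⟨x, y, ⟨hy, hy'⟩, rfl⟩ := hp
  have h1 := (hadm.h_mem x).2
  refine ⟨hadm.sub n (φ n x).2, ?_, ?_, ?_, ?_⟩
  · show 1 / 2 ≤ 1 - y / 2
    linarith
  · show 1 - y / 2 ≤ 1
    linarith
  · show 0 ≤ y / (2 * ((n : ℝ) + 1))
    positivity
  · show y / (2 * ((n : ℝ) + 1)) ≤ 1 / (n + 1)
    rw [div_le_div_iff₀ (by positivity) (by positivity)]
    have : (0:ℝ) ≤ n := by positivity
    nlinarith

lemma tilted_compact (hadm : Admissible h Kn) (n : ℕ) : IsCompact (tilted h φ n) := by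
  have h1 : IsClosed {p : cantorSet × ℝ | p.2 ≤ h p.1} :=
    hadm.h_usc.IsClosed_hypograph
  have h2 : IsCompact ({p : cantorSet × ℝ | p.2 ≤ h p.1} ∩ (univ ×ˢ Icc 0 1)) :=
    (isCompact_univ.prod isCompact_Icc).inter_left h1
  have h3 : tilted h φ n = (fun p : cantorSet × ℝ =>
      (((φ n p.1 : ℝ), 1 - p.2 / 2, p.2 / (2 * ((n : ℝ) + 1))) : ℝ × ℝ × ℝ)) ''
      ({p : cantorSet × ℝ | p.2 ≤ h p.1} ∩ (univ ×ˢ Icc 0 1)) := by
    ext p
    constructor
    · rintro ⟨x, y, hy, rfl⟩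
      exact ⟨(x, y), ⟨hy.2, mem_univ _, hy.1, hy.2.trans (hadm.h_mem x).2⟩, rfl⟩
    · rintro ⟨⟨x, y⟩, ⟨h4, -, h5⟩, rfl⟩
      exact ⟨x, y, ⟨h5.1, h4⟩, rfl⟩
  rw [h3]
  apply h2.image
  have h4 : Continuous fun p : cantorSet × ℝ => (φ n p.1 : ℝ) :=
    continuous_subtype_val.comp ((φ n).continuous.comp continuous_fst)
  fun_prop

lemma near (hadm : Admissible h Kn) {c : ℝ} (hc : 0 < c) :
    ∃ N : ℕ, ∀ p ∈ CC h φ, c < p.2.2 → ∃ n < N, p ∈ tilted h φ n := by
  refine ⟨⌈1 / c⌉₊, ?_⟩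
  rintro p ((hp | hp) | hp) hpc
  · have : p.2.2 = 0 := hp.2.2
    linarith
  · have : p.2.2 = 0 := hp.2.2
    linarith
  · obtain ⟨n, hn⟩ := mem_iUnion.1 hp
    refine ⟨n, ?_, hn⟩
    have h1 := (tilted_facts hadm hn).2.2.2.2
    have h2 : c < 1 / (n + 1) := hpc.trans_le h1
    rw [lt_div_iff₀ (by positivity)] at h2
    have h3 : (n : ℝ) + 1 < 1 / c := by
      rw [lt_div_iff₀ hc]
      linarith
    have h4 : ((n + 1 : ℕ) : ℝ) < ((⌈1 / c⌉₊ : ℕ) : ℝ) := by
      push_cast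
      exact h3.trans_le (Nat.le_ceil _)
    have := Nat.cast_lt.1 h4
    omega

lemma CC_z (hadm : Admissible h Kn) {p : ℝ × ℝ × ℝ} (hp : p ∈ CC h φ) : 0 ≤ p.2.2 := by
  rcases hp with (hp | hp) | hp
  · exact (show p.2.2 = 0 from hp.2.2).ge
  · exact (show p.2.2 = 0 from hp.2.2).ge
  · obtain ⟨n, hn⟩ := mem_iUnion.1 hp
    exact (tilted_facts hadm hn).2.2.2.1

lemma CC_closed (hadm : Admissible h Kn) : IsClosed (CC h φ) := by
  apply isClosed_of_closure_subset
  intro p hp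
  set W : Set (ℝ × ℝ × ℝ) := {q | 0 ≤ q.2.2 ∧ ((q.1 ∈ cantorSet ∧ q.2.1 ∈ Icc 0 1) ∨
    (q.1 ∈ Icc 0 1 ∧ q.2.1 = 0))} with hW
  have hWc : IsClosed W := by
    apply IsClosed.inter (isClosed_le continuous_const (continuous_snd.comp continuous_snd))
    apply IsClosed.union
    · exact (isClosed_cantorSet.preimage continuous_fst).inter
        (isClosed_Icc.preimage (continuous_fst.comp continuous_snd))
    · exact (isClosed_Icc.preimage continuous_fst).inter
        (isClosed_eq (continuous_fst.comp continuous_snd) continuous_const)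
  have h1 : p ∈ W := by
    refine closure_minimal ?_ hWc hp
    intro q hq
    refine ⟨CC_z hadm hq, ?_⟩
    rcases hq with (hq | hq) | hq
    · exact Or.inl ⟨hq.1, hq.2.1⟩
    · exact Or.inr ⟨hq.1, hq.2.1⟩
    · obtain ⟨n, hn⟩ := mem_iUnion.1 hq
      have h2 := tilted_facts hadm hn
      exact Or.inl ⟨h2.1, by linarith [h2.2.1], h2.2.2.1⟩
  rcases h1.1.eq_or_lt with h2 | h2
  · rcases h1.2 with h3 | h3
    · exact Or.inl (Or.inl ⟨h3.1, h3.2, h2.symm⟩)
    · exact Or.inl (Or.inr ⟨h3.1, h3.2, h2.symm⟩)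
  · obtain ⟨N, hN⟩ := near (φ := φ) hadm (half_pos h2)
    have hU : IsOpen {q : ℝ × ℝ × ℝ | p.2.2 / 2 < q.2.2} :=
      isOpen_lt continuous_const (continuous_snd.comp continuous_snd)
    have h3 : p ∈ closure ({q : ℝ × ℝ × ℝ | p.2.2 / 2 < q.2.2} ∩ CC h φ) :=
      hU.inter_closure ⟨by show p.2.2 / 2 < p.2.2; linarith, hp⟩
    have h4 : IsClosed (⋃ n ∈ Finset.range N, tilted h φ n) :=
      ((Finset.range N).isCompact_biUnion fun n _ => tilted_compact hadm n).isClosed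
    have h5 : p ∈ ⋃ n ∈ Finset.range N, tilted h φ n := by
      refine closure_minimal ?_ h4 h3
      rintro q ⟨hq1, hq2⟩
      obtain ⟨n, hn, hq⟩ := hN q hq2 hq1
      exact mem_biUnion (Finset.mem_coe.2 (Finset.mem_range.2 hn)) hq
    obtain ⟨n, -, hn⟩ := mem_iUnion₂.1 h5
    exact Or.inr (mem_iUnion.2 ⟨n, hn⟩)

lemma CC_compact (hadm : Admissible h Kn) : IsCompact (CC h φ) := by
  have h1 : IsCompact ((Icc 0 1 ×ˢ Icc 0 1 ×ˢ Icc 0 1 : Set (ℝ × ℝ × ℝ))) :=
    isCompact_Icc.prod (isCompact_Icc.prod isCompact_Icc)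
  refine h1.of_isClosed_subset (CC_closed hadm) ?_
  intro p hp
  rcases hp with (hp | hp) | hp
  · have : p.2.2 = 0 := hp.2.2
    exact ⟨cantorSet_subset_unitInterval hp.1, hp.2.1, by simp [this]⟩
  · have h2 : p.2.2 = 0 := hp.2.2
    have h3 : p.2.1 = 0 := hp.2.1
    exact ⟨hp.1, by simp [h3], by simp [h2]⟩
  · obtain ⟨n, hn⟩ := mem_iUnion.1 hp
    obtain ⟨h2, h3, h4, h5, h6⟩ := tilted_facts hadm hn
    refine ⟨cantorSet_subset_unitInterval h2, ⟨by linarith, h4⟩, h5, h6.trans ?_⟩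
    rw [div_le_one (by positivity)]
    have : (0:ℝ) ≤ n := by positivity
    linarith

/-! ### The map into the plane -/

/-- The embedding before the collapse. -/
noncomputable def G (ε b : ℕ → ℝ) (p : ℝ × ℝ × ℝ) : ℝ × ℝ :=
  open Classical in
  if p.2.2 = 0 then (p.1, p.2.1) else
    (GX cantorSet ε b (⌊(1 - p.2.1) / p.2.2⌋₊ - 1) p.1 (2 * (1 - p.2.1)),
      GY cantorSet ε (⌊(1 - p.2.1) / p.2.2⌋₊ - 1) p.1 (2 * (1 - p.2.1)))

lemma G_zero {ε b : ℕ → ℝ} {p : ℝ × ℝ × ℝ} (hp : p.2.2 = 0) : G ε b p = (p.1, p.2.1) := by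
  unfold G
  rw [if_pos hp]

lemma G_tilted {ε b : ℕ → ℝ} {n : ℕ} {p : ℝ × ℝ × ℝ} (hp : p ∈ tilted h φ n) :
    G ε b p = (GX cantorSet ε b n p.1 (2 * (1 - p.2.1)),
      GY cantorSet ε n p.1 (2 * (1 - p.2.1))) := by
  obtain ⟨x, y, ⟨hy, hy'⟩, rfl⟩ := hp
  rcases hy.eq_or_lt with h0 | h0
  · subst h0
    rw [G_zero (by simp)]
    have h1 := hooks_zero (K := cantorSet) (ε := ε) (b := b) (n := n) (x := (φ n x : ℝ))
    have h2 : (2 * (1 - (1 - (0:ℝ) / 2))) = 0 := by norm_num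
    simp only [h2]
    rw [h1.1, h1.2]
    norm_num
  · have h1 : y / (2 * ((n : ℝ) + 1)) ≠ 0 := by positivity
    have h2 : (1 - (1 - y / 2)) / (y / (2 * ((n : ℝ) + 1))) = ((n + 1 : ℕ) : ℝ) := by
      push_cast
      field_simp
      ring
    unfold G
    rw [if_neg h1]
    simp only [h2, Nat.floor_natCast, Nat.add_sub_cancel]

/-- The result for hooks with parameters. -/
lemma G_cont (hadm : Admissible h Kn) {A : ℕ → ℕ → Set ℝ} {B : ℕ → Set ℝ} {ε b : ℕ → ℝ}
    (P : Par cantorSet A B ε b) : Continuous fun p : CC h φ => G ε b p := by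
  have hK : cantorSet ⊆ Icc 0 1 := cantorSet_subset_unitInterval
  apply glue (fun n => {p : CC h φ | (p : ℝ × ℝ × ℝ) ∈ tilted h φ n})
  · intro n
    exact (tilted_compact hadm n).isClosed.preimage continuous_subtype_val
  · intro n
    have h1 := hooks_cont P hK (n := n) (S := tilted h φ n) fun p hp => (tilted_facts hadm hp).1
    have h2 : ContinuousOn (fun p : CC h φ => (GX cantorSet ε b n (p : ℝ × ℝ × ℝ).1
        (2 * (1 - (p : ℝ × ℝ × ℝ).2.1)), GY cantorSet ε n (p : ℝ × ℝ × ℝ).1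
        (2 * (1 - (p : ℝ × ℝ × ℝ).2.1)))) {p : CC h φ | (p : ℝ × ℝ × ℝ) ∈ tilted h φ n} :=
      h1.comp continuous_subtype_val.continuousOn fun p hp => hp
    refine h2.congr ?_
    intro p hp
    exact G_tilted hp
  · intro p η hη
    rcases (CC_z hadm p.2).eq_or_lt with h0 | h0
    · obtain ⟨N, hN⟩ := exists_nat_gt (6 / η)
      refine ⟨N, ?_⟩
      have hc : Continuous fun q : CC h φ => (((q : ℝ × ℝ × ℝ).1, (q : ℝ × ℝ × ℝ).2.1) : ℝ × ℝ) := by
        fun_prop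
      have h1 := (Metric.tendsto_nhds.1 (hc.tendsto p)) (η / 2) (half_pos hη)
      filter_upwards [h1] with q hq
      rw [G_zero (p := (p : ℝ × ℝ × ℝ)) h0.symm]
      rcases q.2 with (h2 | h2) | h2
      · right
        rw [G_zero (p := (q : ℝ × ℝ × ℝ)) h2.2.2]
        linarith
      · right
        rw [G_zero (p := (q : ℝ × ℝ × ℝ)) h2.2.2]
        linarith
      · obtain ⟨n, hn⟩ := mem_iUnion.1 h2
        rcases lt_or_ge n N with h3 | h3
        · exact Or.inl ⟨n, h3, hn⟩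
        · right
          have h4 := tilted_facts hadm hn
          obtain ⟨h5, h6⟩ := hooks_close P hK (n := n) h4.1
            (y := 2 * (1 - (q : ℝ × ℝ × ℝ).2.1)) (by linarith [h4.2.2.1])
          have h7 : dist (G ε b (q : ℝ × ℝ × ℝ)) ((q : ℝ × ℝ × ℝ).1, (q : ℝ × ℝ × ℝ).2.1) ≤
              3 * (1 / ((n : ℝ) + 1)) := by
            rw [G_tilted hn, Prod.dist_eq, max_le_iff, Real.dist_eq, Real.dist_eq]
            refine ⟨h5, ?_⟩
            have h8 : 1 - 2 * (1 - (q : ℝ × ℝ × ℝ).2.1) / 2 = (q : ℝ × ℝ × ℝ).2.1 := by ring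
            rw [h8] at h6
            exact h6
          have h8 : 3 * (1 / ((n : ℝ) + 1)) < η / 2 := by
            have h9 : (N : ℝ) ≤ n := Nat.cast_le.2 h3
            have h10 : 6 / η < (n : ℝ) + 1 := by linarith
            rw [div_lt_iff₀ hη] at h10
            rw [mul_one_div, div_lt_iff₀ (by positivity)]
            linarith
          calc dist (G ε b (q : ℝ × ℝ × ℝ)) ((p : ℝ × ℝ × ℝ).1, (p : ℝ × ℝ × ℝ).2.1)
              ≤ dist (G ε b (q : ℝ × ℝ × ℝ)) ((q : ℝ × ℝ × ℝ).1, (q : ℝ × ℝ × ℝ).2.1) +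
                dist ((q : ℝ × ℝ × ℝ).1, (q : ℝ × ℝ × ℝ).2.1)
                  ((p : ℝ × ℝ × ℝ).1, (p : ℝ × ℝ × ℝ).2.1) := dist_triangle _ _ _
            _ < η := by linarith
    · obtain ⟨N, hN⟩ := near (φ := φ) hadm (half_pos h0)
      refine ⟨N, ?_⟩
      have hU : IsOpen {q : CC h φ | (p : ℝ × ℝ × ℝ).2.2 / 2 < (q : ℝ × ℝ × ℝ).2.2} :=
        isOpen_lt continuous_const (by fun_prop)
      filter_upwards [hU.mem_nhds (show (p : ℝ × ℝ × ℝ).2.2 / 2 < (p : ℝ × ℝ × ℝ).2.2 by linarith)]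
        with q hq
      exact Or.inl (hN q q.2 hq)

/-! ### Ramification points -/

lemma eq_of_mk {p q : CC h φ}
    (hpq : (Quotient.mk (collapse h φ) p) = Quotient.mk (collapse h φ) q) :
    p = q ∨ ((p : ℝ × ℝ × ℝ) ∈ bottom ∧ (q : ℝ × ℝ × ℝ) ∈ bottom) :=
  Quotient.exact hpq

lemma blade_mem {x s : ℝ} (hx : x ∈ cantorSet) (hs : s ∈ Icc (0:ℝ) 1) : (x, s, 0) ∈ CC h φ :=
  Or.inl (Or.inl ⟨hx, hs, rfl⟩)

lemma ram_vertex (h : cantorSet → ℝ) {Kn : ℕ → Set ℝ} (φ : ∀ n, cantorSet ≃ₜ Kn n) :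
    IsRamification (Quotient.mk (collapse h φ) ⟨(0, 0, 0),
      blade_mem zero_mem_cantorSet ⟨le_rfl, zero_le_one⟩⟩) := by
  have h12 : (1 / 12 : ℝ) ∈ cantorSet := by
    rw [cantorSet_eq_union_halves]
    left
    exact ⟨1 / 4, quarter_mem_cantorSet, by norm_num⟩
  have hc : ∃ c : Fin 3 → ℝ, (∀ i, c i ∈ cantorSet) ∧ Function.Injective c := by
    refine ⟨![0, 1 / 4, 1 / 12], ?_, ?_⟩
    · intro i
      fin_cases i
      · exact zero_mem_cantorSet
      · exact quarter_mem_cantorSet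
      · exact h12
    · intro i j hij
      fin_cases i <;> fin_cases j <;> first | rfl | (exfalso; norm_num at hij)
  obtain ⟨c, hc, hci⟩ := hc
  have hbot : ∀ i (s : unitInterval), (s : ℝ) = 0 → ((c i, (s : ℝ), 0) : ℝ × ℝ × ℝ) ∈ bottom :=
    fun i s hs => ⟨cantorSet_subset_unitInterval (hc i), hs, rfl⟩
  have h0 : ((0, 0, 0) : ℝ × ℝ × ℝ) ∈ bottom := ⟨⟨le_rfl, zero_le_one⟩, rfl, rfl⟩
  refine ⟨fun i s => Quotient.mk (collapse h φ) ⟨(c i, s, 0), blade_mem (hc i) s.2⟩, ?_, ?_⟩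
  · intro i
    refine ⟨?_, ?_, ?_⟩
    · exact continuous_quotient_mk'.comp (Continuous.subtype_mk (by fun_prop) _)
    · intro s t hst
      rcases eq_of_mk hst with h1 | h1
      · have h2 := congrArg (fun p : CC h φ => (p : ℝ × ℝ × ℝ).2.1) h1
        exact Subtype.ext h2
      · apply Subtype.ext
        rw [show (s : ℝ) = 0 from h1.1.2.1, show (t : ℝ) = 0 from h1.2.2.1]
    · exact Quotient.sound (Or.inr ⟨hbot i 0 rfl, h0⟩)
  · rintro i j hij q ⟨⟨s, rfl⟩, ⟨t, ht⟩⟩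
    rcases eq_of_mk ht with h1 | h1
    · exfalso
      have h2 := congrArg (fun p : CC h φ => (p : ℝ × ℝ × ℝ).1) h1
      exact hij (hci h2).symm
    · exact Quotient.sound (Or.inr ⟨h1.2, h0⟩)

lemma ram_top (hadm : Admissible h Kn) {n m : ℕ} (hnm : n ≠ m) {x x' : cantorSet} (hxx : (φ n x : ℝ) = φ m x')
    (hx : 0 < h x) (hx' : 0 < h x') (hmem : (((φ n x : ℝ), 1, 0) : ℝ × ℝ × ℝ) ∈ CC h φ)
    (hK : (φ n x : ℝ) ∈ cantorSet) :
    IsRamification (Quotient.mk (collapse h φ) ⟨((φ n x : ℝ), 1, 0), hmem⟩) := by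
  have huw : ∃ u w : Fin 3 → ℝ, (∀ i, 0 < u i) ∧ Function.Injective w ∧ ∀ i, ∀ s : unitInterval,
      1 - s * u i / 2 ≠ 0 ∧
      (((φ n x : ℝ), 1 - s * u i / 2, s * u i * w i) : ℝ × ℝ × ℝ) ∈ CC h φ := by
    have hn : (0:ℝ) < 1 / (2 * ((n : ℝ) + 1)) := by positivity
    have hm : (0:ℝ) < 1 / (2 * ((m : ℝ) + 1)) := by positivity
    have hnm' : 1 / (2 * ((n : ℝ) + 1)) ≠ 1 / (2 * ((m : ℝ) + 1)) := by
      intro h1
      rw [div_eq_div_iff (by positivity) (by positivity)] at h1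
      have h2 : (n : ℝ) = m := by linarith
      exact hnm (Nat.cast_injective h2)
    have hval : ∀ v : ℝ, 0 < v → v ≤ 1 → ∀ s : unitInterval,
        0 ≤ (s : ℝ) * v ∧ (s : ℝ) * v ≤ v ∧ 0 < 1 - (s : ℝ) * v / 2 := by
      intro v hv hv1 s
      have h1 := s.2.1
      have h2 := s.2.2
      have h3 : (s : ℝ) * v ≤ 1 * v := mul_le_mul_of_nonneg_right h2 hv.le
      exact ⟨mul_nonneg h1 hv.le, by linarith, by linarith⟩
    refine ⟨![1, h x, h x'], ![0, 1 / (2 * ((n : ℝ) + 1)), 1 / (2 * ((m : ℝ) + 1))], ?_, ?_, ?_⟩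
    · intro i
      fin_cases i
      · exact one_pos
      · exact hx
      · exact hx'
    · intro i j hij
      fin_cases i <;> fin_cases j <;>
        first
        | rfl
        | exact (hn.ne hij).elim
        | exact (hn.ne' hij).elim
        | exact (hm.ne hij).elim
        | exact (hm.ne' hij).elim
        | exact (hnm' hij).elim
        | exact (hnm' hij.symm).elim
    · intro i s
      fin_cases i
      · obtain ⟨h1, h2, h3⟩ := hval 1 one_pos le_rfl s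
        refine ⟨h3.ne', Or.inl (Or.inl ⟨hK, ⟨h3.le, ?_⟩, ?_⟩)⟩
        · show 1 - (s : ℝ) * 1 / 2 ≤ 1
          linarith
        · show (s : ℝ) * 1 * 0 = 0
          ring
      · obtain ⟨h1, h2, h3⟩ := hval (h x) hx (hadm.h_mem x).2 s
        refine ⟨h3.ne', Or.inr (mem_iUnion.2 ⟨n, x, (s : ℝ) * h x, ⟨h1, h2⟩, ?_⟩)⟩
        show (((φ n x : ℝ), 1 - s * h x / 2, s * h x * (1 / (2 * ((n : ℝ) + 1)))) : ℝ × ℝ × ℝ) = _
        rw [mul_one_div]
      · obtain ⟨h1, h2, h3⟩ := hval (h x') hx' (hadm.h_mem x').2 s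
        refine ⟨h3.ne', Or.inr (mem_iUnion.2 ⟨m, x', (s : ℝ) * h x', ⟨h1, h2⟩, ?_⟩)⟩
        show (((φ n x : ℝ), 1 - s * h x' / 2, s * h x' * (1 / (2 * ((m : ℝ) + 1)))) : ℝ × ℝ × ℝ) = _
        rw [mul_one_div, hxx]
  obtain ⟨u, w, hu, hw, hmem'⟩ := huw
  have hval : ∀ i j, ∀ s t : unitInterval,
      (Quotient.mk (collapse h φ) ⟨((φ n x : ℝ), 1 - s * u i / 2, s * u i * w i), (hmem' i s).2⟩) =
      (Quotient.mk (collapse h φ) ⟨((φ n x : ℝ), 1 - t * u j / 2, t * u j * w j), (hmem' j t).2⟩) →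
      (s : ℝ) * u i = t * u j ∧ (s : ℝ) * u i * w i = t * u j * w j := by
    intro i j s t hst
    rcases eq_of_mk hst with h1 | h1
    · have h2 := congrArg (fun p : CC h φ => (p : ℝ × ℝ × ℝ).2.1) h1
      have h3 := congrArg (fun p : CC h φ => (p : ℝ × ℝ × ℝ).2.2) h1
      simp only at h2 h3
      exact ⟨by linarith, h3⟩
    · exact ((hmem' i s).1 h1.1.2.1).elim
  refine ⟨fun i s => Quotient.mk (collapse h φ)
    ⟨((φ n x : ℝ), 1 - s * u i / 2, s * u i * w i), (hmem' i s).2⟩, ?_, ?_⟩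
  · intro i
    refine ⟨?_, ?_, ?_⟩
    · exact continuous_quotient_mk'.comp (Continuous.subtype_mk (by fun_prop) _)
    · intro s t hst
      have h1 := (hval i i s t hst).1
      exact Subtype.ext (mul_right_cancel₀ (hu i).ne' h1)
    · show Quotient.mk (collapse h φ) _ = Quotient.mk (collapse h φ) _
      congr 2
      simp
  · rintro i j hij q ⟨⟨s, rfl⟩, ⟨t, ht⟩⟩
    obtain ⟨h1, h2⟩ := hval j i t s ht
    rw [h1] at h2
    have h3 : (s : ℝ) * u i * (w j - w i) = 0 := by linarith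
    rcases mul_eq_zero.1 h3 with h4 | h4
    · show Quotient.mk (collapse h φ) _ = Quotient.mk (collapse h φ) _
      congr 2
      rw [h4]
      simp
    · exact (hij (hw (sub_eq_zero.1 h4)).symm).elim

lemma disjoint_of_ram (hadm : Admissible h Kn)
    (hram : ∀ p q : F h φ, IsRamification p → IsRamification q → p = q) :
    ∀ n m, n ≠ m → ∀ x x' : cantorSet, (φ n x : ℝ) = φ m x' → h x = 0 ∨ h x' = 0 := by
  intro n m hnm x x' hxx
  by_contra hcon
  push Not at hcon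
  have h1 : 0 < h x := lt_of_le_of_ne (hadm.h_mem x).1 hcon.1.symm
  have h2 : 0 < h x' := lt_of_le_of_ne (hadm.h_mem x').1 hcon.2.symm
  have hK : (φ n x : ℝ) ∈ cantorSet := hadm.sub n (φ n x).2
  have h3 := hram _ _ (ram_vertex h φ) (ram_top hadm hnm hxx h1 h2
    (blade_mem hK ⟨zero_le_one, le_rfl⟩) hK)
  rcases eq_of_mk h3 with h4 | h4
  · have h5 := congrArg (fun p : CC h φ => (p : ℝ × ℝ × ℝ).2.1) h4
    simp at h5
  · have h5 : (1 : ℝ) = 0 := h4.2.2.1
    norm_num at h5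

/-! ### The theorem -/

lemma kinds (hadm : Admissible h Kn) {p : ℝ × ℝ × ℝ} (hp : p ∈ CC h φ) :
    p ∈ bottom ∨ (p.1 ∈ cantorSet ∧ 0 < p.2.1 ∧ p.2.1 ≤ 1 ∧ p.2.2 = 0) ∨
    ∃ n, ∃ x : cantorSet, ∃ y, 0 < y ∧ y ≤ h x ∧
      p = ((φ n x : ℝ), 1 - y / 2, y / (2 * (n + 1))) := by
  rcases hp with (hp | hp) | hp
  · rcases hp.2.1.1.eq_or_lt with h1 | h1
    · exact Or.inl ⟨cantorSet_subset_unitInterval hp.1, h1.symm, hp.2.2⟩
    · exact Or.inr (Or.inl ⟨hp.1, h1, hp.2.1.2, hp.2.2⟩)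
  · exact Or.inl hp
  · obtain ⟨n, x, y, ⟨hy, hy'⟩, rfl⟩ := mem_iUnion.1 hp
    rcases hy.eq_or_lt with h1 | h1
    · subst h1
      refine Or.inr (Or.inl ⟨hadm.sub n (φ n x).2, ?_, ?_, ?_⟩) <;> norm_num
    · exact Or.inr (Or.inr ⟨n, x, y, h1, hy', rfl⟩)

lemma G_hook {ε b : ℕ → ℝ} {n : ℕ} {x : cantorSet} {y : ℝ} (hy : 0 < y) (hy' : y ≤ h x) :
    G ε b ((φ n x : ℝ), 1 - y / 2, y / (2 * ((n : ℝ) + 1))) =
      (GX cantorSet ε b n (φ n x : ℝ) y, GY cantorSet ε n (φ n x : ℝ) y) := by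
  rw [G_tilted (h := h) (φ := φ) ⟨x, y, ⟨hy.le, hy'⟩, rfl⟩]
  have : 2 * (1 - (1 - y / 2)) = y := by ring
  simp only [this]

/-- Q1: for all choices allowed in the problem, if `F` has at most one ramification point (in
particular if `F` is a fan), or if no two tilted blades of positive length start at the same point
(in particular if the sets `Kn n` are pairwise disjoint), then `F` is planar. -/
theorem result {h : cantorSet → ℝ} {Kn : ℕ → Set ℝ} (φ : ∀ n, cantorSet ≃ₜ Kn n)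
    (hadm : Admissible h Kn)
    (hfan : (∀ p q : F h φ, IsRamification p → IsRamification q → p = q) ∨
      ∀ n m, n ≠ m → ∀ x x' : cantorSet, (φ n x : ℝ) = φ m x' → h x = 0 ∨ h x' = 0) :
    ∃ f : F h φ → ℝ × ℝ, IsEmbedding f := by
  replace hfan : ∀ n m, n ≠ m → ∀ x x' : cantorSet, (φ n x : ℝ) = φ m x' → h x = 0 ∨ h x' = 0 :=
    hfan.elim (disjoint_of_ram hadm) id
  have hK : cantorSet ⊆ Icc 0 1 := cantorSet_subset_unitInterval
  have hcl : ∀ c, IsCompact {x : cantorSet | c ≤ h x} :=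
    fun c => (hadm.h_usc.isClosed_preimage c).isCompact
  have hcont : ∀ n, Continuous fun x : cantorSet => (φ n x : ℝ) :=
    fun n => continuous_subtype_val.comp (φ n).continuous
  obtain ⟨ε, b, P⟩ := params (K := cantorSet)
    (A := fun n m => (fun x : cantorSet => (φ n x : ℝ)) '' {x | th n * aa m ≤ h x})
    (B := fun m => (fun x : cantorSet => (φ m x : ℝ)) '' {x | th m ≤ h x})
    hK isClosed_cantorSet interior_cantorSet
    (fun n m => (hcl _).image (hcont n)) (fun n => (hcl _).image (hcont n))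
    (by
      rintro n _ ⟨x, -, rfl⟩
      exact hadm.sub n (φ n x).2)
    (by
      intro n m hnm
      rw [disjoint_left]
      rintro _ ⟨x, hx, rfl⟩ ⟨x', hx', hxx⟩
      have h1 : 0 < h x := lt_of_lt_of_le (mul_pos (th_pos n) (aa_pos m)) hx
      have h2 : 0 < h x' := lt_of_lt_of_le (th_pos m) hx'
      rcases hfan n m hnm.ne x x' hxx.symm with h3 | h3 <;> linarith)
  have hGinj : ∀ p ∈ CC h φ, ∀ q ∈ CC h φ, p ∉ bottom → q ∉ bottom → G ε b p = G ε b q →
      p = q := by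
    intro p hp q hq hpb hqb hG
    have key : ∀ p q : ℝ × ℝ × ℝ, (p.1 ∈ cantorSet ∧ 0 < p.2.1 ∧ p.2.1 ≤ 1 ∧ p.2.2 = 0) →
        (∃ n, ∃ x : cantorSet, ∃ y, 0 < y ∧ y ≤ h x ∧
          q = ((φ n x : ℝ), 1 - y / 2, y / (2 * (n + 1)))) → G ε b p = G ε b q → False := by
      rintro p q ⟨h1, h2, h3, h4⟩ ⟨n, x, y, hy, hy', rfl⟩ hG
      rw [G_zero h4, G_hook hy hy', Prod.mk.injEq] at hG
      have h5 := hooks_avoid P hK (n := n) (hadm.sub n (φ n x).2) hy (by rw [← hG.1]; exact h1)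
      rw [← hG.2] at h5
      linarith
    rcases kinds hadm hp with h1 | h1 | h1
    · exact (hpb h1).elim
    · rcases kinds hadm hq with h2 | h2 | h2
      · exact (hqb h2).elim
      · rw [G_zero h1.2.2.2, G_zero h2.2.2.2, Prod.mk.injEq] at hG
        exact Prod.ext hG.1 (Prod.ext hG.2 (h1.2.2.2.trans h2.2.2.2.symm))
      · exact (key p q h1 h2 hG).elim
    · rcases kinds hadm hq with h2 | h2 | h2
      · exact (hqb h2).elim
      · exact (key q p h2 h1 hG.symm).elim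
      · obtain ⟨n, x, y, hy, hy', rfl⟩ := h1
        obtain ⟨m, x', y', hz, hz', rfl⟩ := h2
        rw [G_hook hy hy', G_hook hz hz', Prod.mk.injEq] at hG
        obtain ⟨rfl, h3, rfl⟩ := hooks_inj P hK (hadm.sub n (φ n x).2) (hadm.sub m (φ m x').2)
          (fun _ hh => ⟨x, hh.trans hy', rfl⟩) (fun _ hh => ⟨x', hh.trans hz', rfl⟩)
          (fun hh => ⟨x, hh.trans hy', rfl⟩) (fun hh => ⟨x', hh.trans hz', rfl⟩)
          (fun hnm hxx => by rcases hfan n m hnm x x' hxx with h3 | h3 <;> linarith)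
          hG.1 hG.2
        rw [h3]
  have hG2 : ∀ p ∈ CC h φ, p ∉ bottom → 0 < (G ε b p).2 := by
    intro p hp hpb
    rcases kinds hadm hp with h1 | h1 | h1
    · exact (hpb h1).elim
    · rw [G_zero h1.2.2.2]
      exact h1.2.1
    · obtain ⟨n, x, y, hy, hy', rfl⟩ := h1
      rw [G_hook hy hy']
      have := hooks_half P hK (n := n) (hadm.sub n (φ n x).2) hy.le
        (hy'.trans (hadm.h_mem x).2)
      show 0 < GY cantorSet ε n (φ n x : ℝ) y
      linarith
  have hG0 : ∀ p : ℝ × ℝ × ℝ, p ∈ bottom → (G ε b p).2 = 0 := by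
    intro p hp
    rw [G_zero hp.2.2]
    exact hp.2.1
  let E : CC h φ → ℝ × ℝ := fun p => ((G ε b p).1 * (G ε b p).2, (G ε b p).2)
  have hGc := G_cont (φ := φ) hadm P
  have hEc : Continuous E := by
    show Continuous fun p : CC h φ => ((G ε b p).1 * (G ε b p).2, (G ε b p).2)
    fun_prop
  have hE : ∀ p q : CC h φ, (collapse h φ) p q → E p = E q := by
    rintro p q (h1 | ⟨h1, h2⟩)
    · rw [h1]
    · show ((G ε b p).1 * (G ε b p).2, (G ε b p).2) = ((G ε b q).1 * (G ε b q).2, (G ε b q).2)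
      rw [hG0 _ h1, hG0 _ h2, mul_zero, mul_zero]
  have hE' : ∀ p q : CC h φ, E p = E q → (collapse h φ) p q := by
    intro p q hpq
    have hpq' : ((G ε b p).1 * (G ε b p).2, (G ε b p).2) =
      ((G ε b q).1 * (G ε b q).2, (G ε b q).2) := hpq
    rw [Prod.mk.injEq] at hpq'
    obtain ⟨h2, h1⟩ := hpq'
    by_cases hp : (p : ℝ × ℝ × ℝ) ∈ bottom
    · by_cases hq : (q : ℝ × ℝ × ℝ) ∈ bottom
      · exact Or.inr ⟨hp, hq⟩
      · exfalso
        have := hG2 _ q.2 hq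
        rw [← h1, hG0 _ hp] at this
        exact lt_irrefl _ this
    · by_cases hq : (q : ℝ × ℝ × ℝ) ∈ bottom
      · exfalso
        have := hG2 _ p.2 hp
        rw [h1, hG0 _ hq] at this
        exact lt_irrefl _ this
      · left
        have h3 := hG2 _ q.2 hq
        rw [h1] at h2
        have h4 := mul_right_cancel₀ h3.ne' h2
        exact Subtype.ext (hGinj p p.2 q q.2 hp hq (Prod.ext h4 h1))
  have : CompactSpace (CC h φ) := isCompact_iff_compactSpace.1 (CC_compact hadm)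
  have : CompactSpace (F h φ) := Quotient.compactSpace
  refine ⟨Quotient.lift E hE, ?_⟩
  have hc : Continuous (Quotient.lift E hE) := hEc.quotient_lift hE
  refine (hc.isClosedEmbedding ?_).isEmbedding
  intro a a'
  induction a using Quotient.inductionOn with
  | h p =>
    induction a' using Quotient.inductionOn with
    | h q =>
      intro hpq
      exact Quotient.sound (hE' p q hpq)

end Pool.Agent.Results.MP_4f06c8_gt.Planar
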